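import Pool.Agent.K6.H73.MaxSet

/-!
# Rogers semilattices of arithmetical families have minimal elements

For every `n ≥ 2` and every `Σ⁰_n`-computable family the Rogers semilattice has a minimal element.

Proof. If the family is infinite and `α` is any `Σ⁰_n`-computable numbering of it, let `C` be the
complement of a maximal set and list the sets `α 0, α 1, …` along the elements `p_0 < p_1 < …` of
`C`; all numbers outside of `C` become indices of `α 0`. The reduction is computable in the jump,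
so for `n ≥ 2` this is a `Σ⁰_n`-computable numbering `β` of the family. If `β ∘ g` is again a
numbering of the family, `g` computable, then the range of `g` contains almost all of `C`, and
`β ≤ β ∘ g` is seen by searching, for given `x`, for a proof that `x ∉ C` or for a `y` with
`g y = x`. For finite families a numbering by a finite set of indices is minimal.
-/

set_option autoImplicit false

namespace Pool.Agent.Results.MP_0db2df_lc.MinimalNumberings

open Pool.Agent.Helper446 Pool.Agent.Helper446.RE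

mutual
/-- `IsSigma n S`: the set `S` of natural numbers is `Σ⁰_n` (`Σ⁰_0` means computable, and `S` is
`Σ⁰_{n+1}` when `x ∈ S ↔ ∃ y, ⟨x, y⟩ ∈ T` for some `Π⁰_n` set `T`). -/
def IsSigma : ℕ → Set ℕ → Prop
  | 0, S => ComputablePred fun x => x ∈ S
  | n + 1, S => ∃ T : Set ℕ, IsPi n T ∧ ∀ x, x ∈ S ↔ ∃ y, Nat.pair x y ∈ T
/-- `IsPi n S`: the set `S` of natural numbers is `Π⁰_n`. -/
def IsPi : ℕ → Set ℕ → Prop
  | 0, S => ComputablePred fun x => x ∈ S
  | n + 1, S => ∃ T : Set ℕ, IsSigma n T ∧ ∀ x, x ∈ S ↔ ∀ y, Nat.pair x y ∈ T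
end

/-- A `Σ⁰_n`-computable numbering of the family `𝒜`: a surjection `α` of the natural numbers onto
`𝒜` such that the set of all `⟨x, m⟩` with `m ∈ α x` is `Σ⁰_n`. -/
structure Numbering (n : ℕ) (𝒜 : Set (Set ℕ)) where
  /-- the numbering -/
  set : ℕ → Set ℕ
  range_eq : Set.range set = 𝒜
  isSigma : IsSigma n {k : ℕ | k.unpair.2 ∈ set k.unpair.1}

/-- Reducibility of numberings: `α ≤ β` if `α = β ∘ f` for a computable function `f`. -/
instance (n : ℕ) (𝒜 : Set (Set ℕ)) : Preorder (Numbering n 𝒜) where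
  le α β := ∃ f : ℕ → ℕ, Computable f ∧ ∀ x, α.set x = β.set (f x)
  le_refl α := ⟨id, Computable.id, fun _ => rfl⟩
  le_trans α β γ := by
    rintro ⟨f, hf, h1⟩ ⟨g, hg, h2⟩
    exact ⟨g ∘ f, hg.comp hf, fun x => by rw [h1, h2]; rfl⟩

/-- The Rogers semilattice: the classes of `Σ⁰_n`-computable numberings of `𝒜` up to
equivalence (reducibility in both directions), with the induced partial order. -/
abbrev Rogers (n : ℕ) (𝒜 : Set (Set ℕ)) : Type := Antisymmetrization (Numbering n 𝒜) (· ≤ ·)

/-! ### Closure properties of the arithmetical classes -/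

lemma comp_cp {S : Set ℕ} (hS : ComputablePred fun x => x ∈ S) {R : ℕ → Prop}
    (hR : ComputablePred R) {g : ℕ → ℕ} (hg : Computable g) :
    ComputablePred fun x => R x ∧ g x ∈ S :=
  cp_of_re (RE.and (of_comput hR) (comp (of_comput hS) hg)) (by
    have h1 : REPred fun x => ¬ R x := of_comput hR.not
    have h2 : REPred fun x => ¬ g x ∈ S := comp (p := fun x => ¬ x ∈ S) (of_comput hS.not) hg
    refine (RE.or h1 h2).of_eq fun x => ?_
    tauto)

lemma cp_pred {R : ℕ → Prop} (hR : ComputablePred R) {g : ℕ → ℕ} (hg : Computable g) :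
    ComputablePred fun x => R (g x) := cp_comp hR hg

lemma closure (n : ℕ) : ∀ S : Set ℕ,
    (IsSigma n S → ∀ R : ℕ → Prop, ComputablePred R → ∀ g : ℕ → ℕ, Computable g →
      IsSigma n {x | R x ∧ g x ∈ S}) ∧
    (IsPi n S → ∀ R : ℕ → Prop, ComputablePred R → ∀ g : ℕ → ℕ, Computable g →
      IsPi n {x | R x ∧ g x ∈ S}) := by
  induction n with
  | zero =>
    intro S
    refine ⟨fun h R hR g hg => ?_, fun h R hR g hg => ?_⟩
    · rw [IsSigma] at h ⊢
      exact comp_cp h hR hg
    · rw [IsPi] at h ⊢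
      exact comp_cp h hR hg
  | succ n ih =>
    intro S
    refine ⟨fun h R hR g hg => ?_, fun h R hR g hg => ?_⟩
    · rw [IsSigma] at h ⊢
      obtain ⟨T, hT, hS⟩ := h
      refine ⟨_, (ih T).2 hT (fun w => R w.unpair.1) (cp_pred hR (by fun_prop))
        (fun w => Nat.pair (g w.unpair.1) w.unpair.2) ?_, fun x => ?_⟩
      · have : Computable fun w : ℕ => g w.unpair.1 := hg.comp (by fun_prop)
        fun_prop
      · simp only [Set.mem_ofPred_eq, hS, Nat.unpair_pair]
        tauto
    · rw [IsPi] at h ⊢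
      obtain ⟨T, hT, hS⟩ := h
      refine ⟨_, (ih T).1 hT (fun w => R w.unpair.1) (cp_pred hR (by fun_prop))
        (fun w => Nat.pair (g w.unpair.1) w.unpair.2) ?_, fun x => ?_⟩
      · have : Computable fun w : ℕ => g w.unpair.1 := hg.comp (by fun_prop)
        fun_prop
      · simp only [Set.mem_ofPred_eq, hS, Nat.unpair_pair]
        constructor
        · rintro ⟨h1, h2⟩ y
          exact ⟨h1, h2 y⟩
        · intro h
          exact ⟨(h 0).1, fun y => (h y).2⟩

lemma subst_sigma {n : ℕ} {S : Set ℕ} (h : IsSigma n S) {g : ℕ → ℕ} (hg : Computable g) :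
    IsSigma n {x | g x ∈ S} := by
  have := (closure n S).1 h (fun _ => True) (cp_of_re (const True) (const (¬ True))) g hg
  simpa using this

/-- If `F x` is the limit of a computable function `f x s` for `s → ∞`, then `α ∘ F` is
`Σ⁰_n`-computable for `n ≥ 2` if `α` is. -/
lemma limit_sigma {n : ℕ} (hn : 2 ≤ n) {α : ℕ → Set ℕ}
    (hα : IsSigma n {k : ℕ | k.unpair.2 ∈ α k.unpair.1}) {F : ℕ → ℕ} {f : ℕ → ℕ → ℕ}
    (hf : Computable₂ f) (hlim : ∀ x, ∃ s, ∀ t, s ≤ t → f x t = F x) :
    IsSigma n {k : ℕ | k.unpair.2 ∈ α (F k.unpair.1)} := by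
  obtain ⟨n, rfl⟩ : ∃ m, n = m + 2 := ⟨n - 2, by omega⟩
  rw [IsSigma] at hα ⊢
  obtain ⟨T, hT, hS⟩ := hα
  rw [IsPi] at hT
  obtain ⟨Q, hQ, hTQ⟩ := hT
  -- the coding: `q = ⟨⟨⟨x, m⟩, ⟨i, ⟨s, y⟩⟩⟩, ⟨t, z⟩⟩`
  let R : ℕ → Prop := fun q => q.unpair.2.unpair.1 < q.unpair.1.unpair.2.unpair.2.unpair.1 ∨
    f q.unpair.1.unpair.1.unpair.1 q.unpair.2.unpair.1 = q.unpair.1.unpair.2.unpair.1
  let g : ℕ → ℕ := fun q => Nat.pair (Nat.pair (Nat.pair q.unpair.1.unpair.2.unpair.1
    q.unpair.1.unpair.1.unpair.2) q.unpair.1.unpair.2.unpair.2.unpair.2) q.unpair.2.unpair.2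
  have hR : ComputablePred R := by
    have hf' : Computable fun q : ℕ => f q.unpair.1.unpair.1.unpair.1 q.unpair.2.unpair.1 := by
      have h0 : Computable fun p : ℕ × ℕ => f p.1 p.2 := hf
      exact h0.comp (g := fun q : ℕ => (q.unpair.1.unpair.1.unpair.1, q.unpair.2.unpair.1))
        (by fun_prop)
    have h1 := cp_lt (f := fun q : ℕ => q.unpair.2.unpair.1)
      (g := fun q : ℕ => q.unpair.1.unpair.2.unpair.2.unpair.1) (by fun_prop) (by fun_prop)
    have h2 := cp_eq hf' (g := fun q : ℕ => q.unpair.1.unpair.2.unpair.1) (by fun_prop)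
    refine cp_of_re (RE.or (of_comput h1) (of_comput h2)) ?_
    refine (RE.and (of_comput h1.not) (of_comput h2.not)).of_eq fun q => ?_
    simp only [R]
    tauto
  have hg : Computable g := by
    simp only [g]
    fun_prop
  refine ⟨{w | ∀ z, Nat.pair w z ∈ {q | R q ∧ g q ∈ Q}}, ?_, ?_⟩
  · rw [IsPi]
    exact ⟨_, (closure n Q).1 hQ R hR g hg, fun x => Iff.rfl⟩
  · intro k
    simp only [Set.mem_ofPred_eq, R, g, Nat.unpair_pair]
    have hS' : ∀ i m, m ∈ α i ↔ ∃ y, ∀ z, Nat.pair (Nat.pair (Nat.pair i m) y) z ∈ Q := by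
      intro i m
      have h1 := hS (Nat.pair i m)
      simp only [Set.mem_ofPred_eq, Nat.unpair_pair] at h1
      rw [h1]
      exact exists_congr fun y => hTQ _
    rw [hS']
    constructor
    · rintro ⟨y, hy⟩
      obtain ⟨s, hs⟩ := hlim k.unpair.1
      refine ⟨Nat.pair (F k.unpair.1) (Nat.pair s y), fun w => ?_⟩
      simp only [Nat.unpair_pair]
      refine ⟨?_, hy _⟩
      by_cases h : w.unpair.1 < s
      · exact Or.inl h
      · exact Or.inr (hs _ (by omega))
    · rintro ⟨v, hv⟩
      obtain ⟨s, hs⟩ := hlim k.unpair.1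
      have h1 : F k.unpair.1 = v.unpair.1 := by
        have h2 := (hv (Nat.pair (max s v.unpair.2.unpair.1) 0)).1
        simp only [Nat.unpair_pair] at h2
        rcases h2 with h2 | h2
        · have := le_max_right s v.unpair.2.unpair.1
          omega
        · rw [← h2, hs _ (le_max_left _ _)]
      refine ⟨v.unpair.2.unpair.2, fun z => ?_⟩
      have h2 := (hv (Nat.pair 0 z)).2
      simp only [Nat.unpair_pair] at h2
      rw [h1]
      exact h2

lemma set_mem {n : ℕ} {𝒜 : Set (Set ℕ)} (α : Numbering n 𝒜) (i : ℕ) : α.set i ∈ 𝒜 :=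
  (Set.ext_iff.1 α.range_eq _).1 ⟨i, rfl⟩

lemma exists_index {n : ℕ} {𝒜 : Set (Set ℕ)} (α : Numbering n 𝒜) {A : Set ℕ} (hA : A ∈ 𝒜) :
    ∃ i, α.set i = A := (Set.ext_iff.1 α.range_eq A).2 hA

/-! ### Finite families -/

lemma finite_case {n : ℕ} {𝒜 : Set (Set ℕ)} (hfin : 𝒜.Finite) (α : Numbering n 𝒜) :
    ∃ β : Numbering n 𝒜, IsMin β := by
  classical
  -- finitely many indices are enough
  have hN : ∃ N, ∀ A ∈ 𝒜, ∃ i < N, α.set i = A := by
    have h1 : ∀ A ∈ 𝒜, ∃ i, α.set i = A := fun A hA => exists_index α hA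
    choose! ix hix using h1
    obtain ⟨N, hN⟩ := (hfin.image ix).bddAbove
    exact ⟨N + 1, fun A hA => ⟨ix A, Nat.lt_succ_of_le (hN ⟨A, hA, rfl⟩), hix A hA⟩⟩
  obtain ⟨N, hN⟩ := hN
  let f : ℕ → ℕ := fun x => min x N
  have hf : Computable f := by
    simp only [f]
    fun_prop
  refine ⟨⟨fun x => α.set (f x), ?_, ?_⟩, ?_⟩
  · ext A
    constructor
    · rintro ⟨x, rfl⟩
      exact set_mem α _
    · intro hA
      obtain ⟨i, hi, h⟩ := hN A hA
      refine ⟨i, ?_⟩
      simp only [f]
      rw [min_eq_left hi.le, h]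
  · have h1 := subst_sigma α.isSigma (g := fun k => Nat.pair (f k.unpair.1) k.unpair.2) (by
      have : Computable fun k : ℕ => f k.unpair.1 := hf.comp (by fun_prop)
      fun_prop)
    simpa using h1
  · rintro γ ⟨g, hg, h⟩
    simp only at h
    -- choose indices
    have h1 : ∀ x, ∃ y, γ.set y = α.set (f x) := fun x => exists_index γ (set_mem α _)
    choose y hy using h1
    let L : List ℕ := (List.range (N + 1)).map y
    refine ⟨fun x => (L[f x]?).getD 0, ?_, fun x => ?_⟩
    · have h2 : Computable fun x => L[f x]? := by fun_prop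
      exact Computable.option_getD h2 (Computable.const 0)
    · have h3 : f x < N + 1 := by simp only [f]; omega
      have h4 : L[f x]? = some (y (f x)) := by
        simp only [L, List.getElem?_map]
        rw [List.getElem?_range h3]
        rfl
      simp only [h4, Option.getD_some, hy]
      congr 1
      simp only [f]
      omega

/-! ### Infinite families -/

lemma infinite_case {n : ℕ} (hn : 2 ≤ n) {𝒜 : Set (Set ℕ)} (hinf : 𝒜.Infinite)
    (α : Numbering n 𝒜) : ∃ β : Numbering n 𝒜, IsMin β := by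
  classical
  obtain ⟨C, hC, hco, hcoh⟩ := Pool.Agent.K6.H73.MaxSet.exists_cohesive
  obtain ⟨e, he⟩ := wst_univ hco
  -- the number of elements of `C` below `x`, or `0` if `x ∉ C`
  let F : ℕ → ℕ := fun x => if x ∈ C then Nat.count (· ∈ C) x else 0
  let cnt : ℕ → ℕ → ℕ → ℕ := fun s x n => Nat.rec 0 (fun i c => bif wst ℕ e s i then c else c + 1) n
  let f : ℕ → ℕ → ℕ := fun x s => bif wst ℕ e s x then 0 else cnt s x x
  have hw : Computable fun p : ℕ × ℕ => wst ℕ e p.1 p.2 :=
    wst_comp.comp (g := fun p : ℕ × ℕ => ((e, p.1), p.2)) (by fun_prop)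
  have hf : Computable₂ f := by
    unfold Computable₂
    have h1 : Computable fun p : ℕ × ℕ => wst ℕ e p.2 p.1 :=
      hw.comp (g := fun p : ℕ × ℕ => (p.2, p.1)) (by fun_prop)
    have h2 : Computable fun p : ℕ × ℕ => cnt p.2 p.1 p.1 := by
      refine Computable.nat_rec (f := fun p : ℕ × ℕ => p.1) (g := fun _ => 0)
        (h := fun p q => bif wst ℕ e p.2 q.1 then q.2 else q.2 + 1) (by fun_prop) (by fun_prop) ?_
      unfold Computable₂
      have h3 : Computable fun x : (ℕ × ℕ) × (ℕ × ℕ) => wst ℕ e x.1.2 x.2.1 :=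
        hw.comp (g := fun x : (ℕ × ℕ) × (ℕ × ℕ) => (x.1.2, x.2.1)) (by fun_prop)
      exact ccond h3 (by fun_prop) (by fun_prop)
    exact ccond h1 (by fun_prop) h2
  have hstab : ∀ x, ∃ s, ∀ t, s ≤ t → ∀ i ≤ x, (wst ℕ e t i = true ↔ i ∉ C) := by
    intro x
    induction x with
    | zero =>
      by_cases h : (0 : ℕ) ∉ C
      · obtain ⟨s, hs⟩ := (he 0).1 h
        refine ⟨s, fun t ht i hi => ?_⟩
        obtain rfl : i = 0 := by omega
        exact ⟨fun _ => h, fun _ => wst_mono ht hs⟩
      · refine ⟨0, fun t _ i hi => ?_⟩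
        obtain rfl : i = 0 := by omega
        exact ⟨fun h1 => (he 0).2 ⟨t, h1⟩, fun h1 => absurd h1 h⟩
    | succ x ih =>
      obtain ⟨s, hs⟩ := ih
      by_cases h : (x + 1 : ℕ) ∉ C
      · obtain ⟨s', hs'⟩ := (he (x + 1)).1 h
        refine ⟨max s s', fun t ht i hi => ?_⟩
        rcases Nat.lt_or_ge x i with h1 | h1
        · obtain rfl : i = x + 1 := by omega
          exact ⟨fun _ => h, fun _ => wst_mono ((le_max_right _ _).trans ht) hs'⟩
        · exact hs t ((le_max_left _ _).trans ht) i h1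
      · refine ⟨s, fun t ht i hi => ?_⟩
        rcases Nat.lt_or_ge x i with h1 | h1
        · obtain rfl : i = x + 1 := by omega
          exact ⟨fun h1 => (he _).2 ⟨t, h1⟩, fun h1 => absurd h1 h⟩
        · exact hs t ht i h1
  have hlim : ∀ x, ∃ s, ∀ t, s ≤ t → f x t = F x := by
    intro x
    obtain ⟨s, hs⟩ := hstab x
    refine ⟨s, fun t ht => ?_⟩
    have h1 : ∀ m, m ≤ x → cnt t x m = Nat.count (· ∈ C) m := by
      intro m
      induction m with
      | zero => intro _; simp [cnt]
      | succ m ih =>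
        intro hm
        have h2 := ih (by omega)
        have h3 := hs t ht m (by omega)
        rw [Nat.count_succ]
        change (bif wst ℕ e t m then cnt t x m else cnt t x m + 1) = _
        by_cases h4 : m ∈ C
        · have h5 : wst ℕ e t m = false := by
            rw [← Bool.not_eq_true]
            exact fun h => (h3.1 h) h4
          rw [h5, if_pos h4, h2]
          rfl
        · rw [h3.2 h4, if_neg h4, h2]
          rfl
    have h3 := hs t ht x le_rfl
    simp only [f, F]
    by_cases h4 : x ∈ C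
    · have h5 : wst ℕ e t x = false := by
        rw [← Bool.not_eq_true]
        exact fun h => (h3.1 h) h4
      rw [h5, if_pos h4, h1 x le_rfl]
      rfl
    · rw [h3.2 h4, if_neg h4]
      rfl
  have hFsurj : ∀ i, ∃ x, F x = i := by
    intro i
    refine ⟨Nat.nth (· ∈ C) i, ?_⟩
    have h1 : Nat.nth (· ∈ C) i ∈ C := Nat.nth_mem_of_infinite hC i
    simp only [F]
    rw [if_pos h1]
    exact Nat.count_nth_of_infinite (p := (· ∈ C)) hC i
  refine ⟨⟨fun x => α.set (F x), ?_, limit_sigma hn α.isSigma hf hlim⟩, ?_⟩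
  · ext A
    constructor
    · rintro ⟨x, rfl⟩
      exact set_mem α _
    · intro hA
      obtain ⟨i, rfl⟩ := exists_index α hA
      obtain ⟨x, hx⟩ := hFsurj i
      exact ⟨x, by simp only [hx]⟩
  · rintro γ ⟨g, hg, h⟩
    simp only at h
    have hγ : ∀ x, ∃ y, γ.set y = α.set (F x) := fun x => exists_index γ (set_mem α _)
    choose y hy using hγ
    have hW : REPred (· ∈ Set.range g) :=
      exN (p := fun (x : ℕ) m => g m = x) (eq (hg.comp (by fun_prop)) (by fun_prop))
    rcases hcoh _ hW with h1 | h1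
    · -- then `γ` has finite range
      exfalso
      refine hinf ?_
      rw [← γ.range_eq]
      refine ((h1.image fun x => α.set (F x)).union (Set.finite_singleton (α.set 0))).subset ?_
      rintro A ⟨m, rfl⟩
      rw [h m]
      by_cases hm : g m ∈ C
      · exact Or.inl ⟨g m, ⟨hm, m, rfl⟩, rfl⟩
      · right
        simp only [F, if_neg hm, Set.mem_singleton_iff]
    · obtain ⟨N, hN⟩ := h1.bddAbove
      obtain ⟨x0, hx0⟩ := hFsurj 0
      let L : List ℕ := (List.range (N + 1)).map y
      have hr : REPred fun p : ℕ × ℕ => (p.1 < N + 1 ∧ (L[p.1]?).getD 0 = p.2) ∨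
          ((p.1 ∉ C ∧ p.2 = y x0) ∨ g p.2 = p.1) := by
        have h2 : Computable fun p : ℕ × ℕ => L[p.1]? := by fun_prop
        have h3 : Computable fun p : ℕ × ℕ => (L[p.1]?).getD 0 :=
          Computable.option_getD h2 (Computable.const 0)
        have h4 : Computable fun p : ℕ × ℕ => g p.2 := hg.comp (by fun_prop)
        have r1 : REPred fun p : ℕ × ℕ => p.1 < N + 1 := RE.lt (by fun_prop) (by fun_prop)
        have r2 : REPred fun p : ℕ × ℕ => (L[p.1]?).getD 0 = p.2 := RE.eq h3 (by fun_prop)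
        have r3 : REPred fun p : ℕ × ℕ => p.1 ∉ C :=
          RE.comp (p := fun x => x ∉ C) hco (f := fun p : ℕ × ℕ => p.1) (by fun_prop)
        have r4 : REPred fun p : ℕ × ℕ => p.2 = y x0 := RE.eq (by fun_prop) (by fun_prop)
        have r5 : REPred fun p : ℕ × ℕ => g p.2 = p.1 := RE.eq h4 (by fun_prop)
        exact RE.or (RE.and r1 r2) (RE.or (RE.and r3 r4) r5)
      obtain ⟨k, hk, hk1, hk2⟩ := uniformize (r := fun a b => (a < N + 1 ∧ (L[a]?).getD 0 = b) ∨
          ((a ∉ C ∧ b = y x0) ∨ g b = a)) hr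
      have hdom : ∀ x, (k x).Dom := by
        intro x
        rw [hk1]
        by_cases h2 : x < N + 1
        · exact ⟨_, Or.inl ⟨h2, rfl⟩⟩
        · by_cases h3 : x ∈ C
          · have h4 : x ∈ Set.range g := by
              by_contra h5
              exact h2 (Nat.lt_succ_of_le (hN ⟨h3, h5⟩))
            obtain ⟨m, hm⟩ := h4
            exact ⟨m, Or.inr (Or.inr hm)⟩
          · exact ⟨_, Or.inr (Or.inl ⟨h3, rfl⟩)⟩
      refine ⟨fun x => (k x).get (hdom x), hk.of_eq_tot fun x => Part.get_mem _, fun x => ?_⟩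
      have h2 := hk2 x _ (Part.get_mem (hdom x))
      simp only
      rcases h2 with ⟨h3, h4⟩ | ⟨h3, h4⟩ | h3
      · rw [← h4]
        have h5 : L[x]? = some (y x) := by
          simp only [L, List.getElem?_map]
          rw [List.getElem?_range h3]
          rfl
        rw [h5, Option.getD_some, hy]
      · rw [h4, hy, hx0]
        simp only [F, if_neg h3]
      · rw [h, h3]

/-- **Answer to Q1, for every `n ≥ 2`: no.** The Rogers semilattice of every `Σ⁰_n`-computable
family (a family which has a `Σ⁰_n`-computable numbering) has a minimal element. -/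
theorem result : ∀ n : ℕ, 2 ≤ n → ∀ 𝒜 : Set (Set ℕ), Nonempty (Numbering n 𝒜) →
    ∃ a : Rogers n 𝒜, IsMin a := by
  rintro n hn 𝒜 ⟨α⟩
  have h1 : ∃ β : Numbering n 𝒜, IsMin β := by
    by_cases hfin : 𝒜.Finite
    · exact finite_case hfin α
    · exact infinite_case hn hfin α
  obtain ⟨β, hβ⟩ := h1
  refine ⟨toAntisymmetrization (· ≤ ·) β, fun b hb => ?_⟩
  induction b using Quotient.inductionOn' with
  | h γ => exact hβ hb

end Pool.Agent.Results.MP_0db2df_lc.MinimalNumberings
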